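import Pool.Agent.helper3.SP.SpecPP

/-!
# PP23: the two tracks from `x` to `y`
-/

namespace TP

open DP MeasureTheory

theorem PP23_mem (U : Set V) {V' W' : Set V} {z z' : V} (hz : Con V' z z') (h : V' ⊆ U ∪ W') :
    Con (U ∪ W') z z' := hz.mono h

/-- Union of two connected sets which meet. -/
theorem PP23_union {c : V → Bool} {k : Bool} {R U M : Set V} (hU : CnS c k R U)
    (hM : CnS c k R M) (h : (U ∩ M).Nonempty) : CnS c k R (U ∪ M) := by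
  obtain ⟨a, haU, haM⟩ := h
  refine ⟨?_, ?_⟩
  · rintro v (hv | hv)
    · exact hU.1 v hv
    · exact hM.1 v hv
  · have key : ∀ z ∈ U ∪ M, Con (U ∪ M) z a := by
      rintro z (hz | hz)
      · exact (hU.2 z hz a haU).mono Set.subset_union_left
      · exact (hM.2 z hz a haM).mono Set.subset_union_right
    intro z hz z' hz'
    exact (key z hz).trans (key z' hz').symm

theorem PP23_mono {c : V → Bool} {k : Bool} {R R' U : Set V} (hU : CnS c k R U) (h : R ⊆ R') :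
    CnS c k R' U := ⟨fun v hv => ⟨h (hU.1 v hv).1, (hU.1 v hv).2⟩, hU.2⟩

theorem PP23_ne {v w : V} (h : br v = br w) : v.2 = w.2 ∧ v.1 - 1 ≤ w.1 ∧ w.1 - 1 ≤ v.1 := by
  have h1 := br_fst v
  have h2 := br_snd v
  have h3 := br_fst w
  have h4 := br_snd w
  rw [h] at h1 h2
  refine ⟨?_, ?_, ?_⟩ <;> omega

/-- The arm `i` meets a set which hooks at the standard point. -/
theorem PP23_hook {c : V → Bool} {x : V} {ℓ₁ ℓ : ℕ} {U : ℕ → Set V} {M : Set V}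
    (h1 : 64 * ℓ₁ ≤ ℓ) (hU : Legs c x (256 * ℓ₁) (32 * ℓ) U) {i : ℕ} (hi : i < 6)
    (hk : kol6 i = true) {A : V} (hA : A = zp6 x (32 * ℓ) i) (hM : Hok M A ℓ) :
    (U i ∩ M).Nonempty := by
  obtain ⟨hC, p, hp, u, hu, hpm, hun, hsp, hsu⟩ := hU.2.2 i hi hk
  subst hA
  have hz : sd x (zp6 x (32 * ℓ) i) = 32 * ℓ := by
    unfold zp6 sd
    split_ifs <;> simp only [] <;> omega
  have hp' : sd x p = 256 * ℓ₁ := hpm
  have ht := sd_triangle x p (zp6 x (32 * ℓ) i)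
  have hc := sd_comm p (zp6 x (32 * ℓ) i)
  obtain ⟨a, ha, hb⟩ := hM (U i) u p (hC.2 u hu p hp) (by omega) (by omega)
  exact ⟨a, hb, ha⟩

theorem PP23_cell (x : V) (ℓ S : ℕ) (e : Bool) (t : ℕ) (ht : t ≤ 16 * S - 32) :
    (((x.1 + 32 * ℓ + (2 * t * ℓ : ℕ), x.2 + sge e * (16 * ℓ)) : V), ℓ) ∈ (midX x ℓ S e).all := by
  unfold Wire.all
  refine List.mem_append.2 (Or.inl (List.mem_map.2 ⟨_, ?_, rfl⟩))
  unfold Wire.cel
  refine List.mem_flatMap.2 ⟨((x.1 + 32 * ℓ, x.2 + sge e * (16 * ℓ)), 0, 16 * S - 32), ?_, ?_⟩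
  · exact List.mem_singleton.2 rfl
  · unfold scel
    refine List.mem_map.2 ⟨t, List.mem_range.2 (by simp only []; omega), ?_⟩
    rfl

theorem PP23_first (x : V) (ℓ S : ℕ) (e : Bool) :
    ((zp6 x (32 * ℓ) (if e = true then 1 else 0)), ℓ) ∈ (midX x ℓ S e).all := by
  have h := PP23_cell x ℓ S e 0 (Nat.zero_le _)
  convert h using 2
  have h2 : (32 * ℓ) / 2 = 16 * ℓ := by omega
  cases e
  · simp only [zp6, sge, h2]
    simp
    omega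
  · simp only [zp6, sge, h2]
    simp

theorem PP23_last (x : V) (ℓ S : ℕ) (e : Bool) (hS : 16 ≤ S) :
    ((zp6 (yc x ℓ S) (32 * ℓ) (if e = true then 3 else 4)), ℓ) ∈ (midX x ℓ S e).all := by
  have h := PP23_cell x ℓ S e (16 * S - 32) le_rfl
  convert h using 2
  have h2 : (32 * ℓ) / 2 = 16 * ℓ := by omega
  have h3 : ((2 * (16 * S - 32) * ℓ : ℕ) : ℤ) = 32 * S * ℓ - 64 * ℓ := by
    have h4 : ((16 * S - 32 : ℕ) : ℤ) = 16 * S - 32 := by omega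
    push_cast [h4]
    ring
  cases e
  · simp only [zp6, yc, sge, h2, h3]
    simp
    constructor <;> ring
  · simp only [zp6, yc, sge, h2, h3]
    simp
    ring

theorem PP23_pr (h14 : PP14_stmt) {x : V} {m₀ n₀ ℓ₁ ℓ S ℓ₃ : ℕ} (hP : ParC m₀ n₀ ℓ₁ ℓ S ℓ₃)
    (e : Bool) : ∀ v ∈ regL (midX x ℓ S e).all, 29 * ℓ < v.1 - x.1 ∧
      v.1 - x.1 < 32 * (S * ℓ : ℕ) - 29 * ℓ ∧
      13 * ℓ < sge e * (v.2 - x.2) ∧ sge e * (v.2 - x.2) < 19 * ℓ := by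
  obtain ⟨a1, a2, a3, a4, a5, a6⟩ := hP
  intro v hv
  obtain ⟨b1, b2, b3, b4⟩ := (h14 x ℓ S e (by omega) a4).2.2.1 v hv
  refine ⟨b1, ?_, b3, b4⟩
  have : (32 * S * ℓ : ℤ) = 32 * (S * ℓ : ℕ) := by push_cast; ring
  rw [this] at b2
  exact b2

theorem PP23_par {m₀ n₀ ℓ₁ ℓ S ℓ₃ : ℕ} (hP : ParC m₀ n₀ ℓ₁ ℓ S ℓ₃) :
    16 * ℓ ≤ S * ℓ ∧ 64 * (S * ℓ) ≤ ℓ₃ ∧ 64 * ℓ₁ ≤ ℓ ∧ 16 ≤ ℓ₁ := by
  obtain ⟨a1, a2, a3, a4, a5, a6⟩ := hP
  have h1 : S ≤ S ^ 3 := Nat.le_self_pow (by norm_num) S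
  have h2 : S * ℓ ≤ S ^ 3 * ℓ := Nat.mul_le_mul_right ℓ h1
  have h3 : 16 * ℓ ≤ S * ℓ := Nat.mul_le_mul_right ℓ a4
  refine ⟨h3, by omega, a3, by omega⟩

theorem PP23_yc1 (x : V) (ℓ S : ℕ) : (yc x ℓ S).1 = x.1 + 32 * (S * ℓ : ℕ) := by
  unfold yc
  push_cast
  ring

theorem PP23_yc2 (x : V) (ℓ S : ℕ) : (yc x ℓ S).2 = x.2 := rfl

theorem PP23_inX {x : V} {m₀ n₀ ℓ₁ ℓ S ℓ₃ : ℕ} (hP : ParC m₀ n₀ ℓ₁ ℓ S ℓ₃) (i : ℕ) :
    Rg x (256 * ℓ₁) (32 * ℓ) i ⊆ ann x (29 * ℓ₁) (280 * ℓ₃) := by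
  rintro v ⟨⟨h1, h2⟩, -⟩
  obtain ⟨b1, b2, b3, b4⟩ := PP23_par hP
  exact ⟨by omega, by omega⟩

theorem PP23_inY {x : V} {m₀ n₀ ℓ₁ ℓ S ℓ₃ : ℕ} (hP : ParC m₀ n₀ ℓ₁ ℓ S ℓ₃) (i : ℕ) :
    Rg (yc x ℓ S) (256 * ℓ₁) (32 * ℓ) i ⊆ ann x (29 * ℓ₁) (280 * ℓ₃) := by
  rintro v ⟨⟨h1, h2⟩, -⟩
  obtain ⟨b1, b2, b3, b4⟩ := PP23_par hP
  have e1 := PP23_yc1 x ℓ S
  have e2 := PP23_yc2 x ℓ S
  unfold sd at h1 h2
  constructor
  · unfold sd; omega
  · unfold sd; omega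

theorem PP23_inM (h14 : PP14_stmt) {x : V} {m₀ n₀ ℓ₁ ℓ S ℓ₃ : ℕ}
    (hP : ParC m₀ n₀ ℓ₁ ℓ S ℓ₃) (e : Bool) :
    regL (midX x ℓ S e).all ⊆ ann x (29 * ℓ₁) (280 * ℓ₃) := by
  intro v hv
  obtain ⟨c1, c2, c3, c4⟩ := PP23_pr h14 hP e v hv
  obtain ⟨b1, b2, b3, b4⟩ := PP23_par hP
  have hs : sge e = 1 ∨ sge e = -1 := by
    unfold sge; cases e <;> simp
  constructor
  · unfold sd; rcases hs with hs | hs <;> rw [hs] at c3 c4 <;> omega
  · unfold sd; rcases hs with hs | hs <;> rw [hs] at c3 c4 <;> omega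

/-- An arm of `x` and the other wire. -/
theorem PP23_dX (h14 : PP14_stmt) {x : V} {m₀ n₀ ℓ₁ ℓ S ℓ₃ : ℕ} (hP : ParC m₀ n₀ ℓ₁ ℓ S ℓ₃)
    (e : Bool) : BDis (Rg x (256 * ℓ₁) (32 * ℓ) (if e = true then 1 else 0))
      (regL (midX x ℓ S (!e)).all) := by
  intro v hv w hw h
  obtain ⟨c1, c2, c3, c4⟩ := PP23_pr h14 hP (!e) w hw
  obtain ⟨b1, b2, b3, b4⟩ := PP23_par hP
  obtain ⟨d1, d2, d3⟩ := PP23_ne h
  obtain ⟨⟨h1, h2⟩, h3⟩ := hv
  cases e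
  · have h4 := (h3 1 (by norm_num) (by unfold conf kol6; simp)).2
    have hs : sge (!false) = 1 := rfl
    rw [hs] at c3 c4
    simp only [zp6] at h4
    simp only [if_true, one_ne_zero, if_false] at h4
    unfold sd at h1 h2 h4
    simp only [] at h4
    omega
  · have h4 := (h3 0 (by norm_num) (by unfold conf kol6; simp)).2
    have hs : sge (!true) = -1 := rfl
    rw [hs] at c3 c4
    simp only [zp6] at h4
    simp only [if_true] at h4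
    unfold sd at h1 h2 h4
    simp only [] at h4
    omega

/-- An arm of `y` and the other wire. -/
theorem PP23_dY (h14 : PP14_stmt) {x : V} {m₀ n₀ ℓ₁ ℓ S ℓ₃ : ℕ} (hP : ParC m₀ n₀ ℓ₁ ℓ S ℓ₃)
    (e : Bool) : BDis (Rg (yc x ℓ S) (256 * ℓ₁) (32 * ℓ) (if e = true then 3 else 4))
      (regL (midX x ℓ S (!e)).all) := by
  intro v hv w hw h
  obtain ⟨c1, c2, c3, c4⟩ := PP23_pr h14 hP (!e) w hw
  obtain ⟨b1, b2, b3, b4⟩ := PP23_par hP
  obtain ⟨d1, d2, d3⟩ := PP23_ne h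
  obtain ⟨⟨h1, h2⟩, h3⟩ := hv
  have e1 := PP23_yc1 x ℓ S
  have e2 := PP23_yc2 x ℓ S
  cases e
  · have h4 := (h3 3 (by norm_num) (by unfold conf kol6; simp)).2
    have hs : sge (!false) = 1 := rfl
    rw [hs] at c3 c4
    simp only [zp6] at h4
    norm_num at h4
    unfold sd at h1 h2 h4
    simp only [] at h4
    omega
  · have h4 := (h3 4 (by norm_num) (by unfold conf kol6; simp)).2
    have hs : sge (!true) = -1 := rfl
    rw [hs] at c3 c4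
    simp only [zp6] at h4
    norm_num at h4
    unfold sd at h1 h2 h4
    simp only [] at h4
    omega

/-- Arms of `x` and of `y`. -/
theorem PP23_dXY {x : V} {m₀ n₀ ℓ₁ ℓ S ℓ₃ : ℕ} (hP : ParC m₀ n₀ ℓ₁ ℓ S ℓ₃)
    (i j : ℕ) : BDis (Rg x (256 * ℓ₁) (32 * ℓ) i) (Rg (yc x ℓ S) (256 * ℓ₁) (32 * ℓ) j) := by
  refine BDis.of_sd ?_
  rintro v ⟨⟨h1, h2⟩, -⟩ w ⟨⟨h3, h4⟩, -⟩
  obtain ⟨b1, b2, b3, b4⟩ := PP23_par hP
  have e1 := PP23_yc1 x ℓ S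
  have e2 := PP23_yc2 x ℓ S
  unfold sd at h1 h2 h3 h4 ⊢
  omega

/-- The two wires. -/
theorem PP23_dMM (h14 : PP14_stmt) {x : V} {m₀ n₀ ℓ₁ ℓ S ℓ₃ : ℕ} (hP : ParC m₀ n₀ ℓ₁ ℓ S ℓ₃) :
    BDis (regL (midX x ℓ S true).all) (regL (midX x ℓ S false).all) := by
  intro v hv w hw h
  obtain ⟨c1, c2, c3, c4⟩ := PP23_pr h14 hP true v hv
  obtain ⟨c1', c2', c3', c4'⟩ := PP23_pr h14 hP false w hw
  obtain ⟨d1, d2, d3⟩ := PP23_ne h
  have hs : sge true = 1 := rfl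
  have hs' : sge false = -1 := rfl
  rw [hs] at c3 c4
  rw [hs'] at c3' c4'
  omega

theorem PP23 (h14 : PP14_stmt) : PP23_stmt := by
  intro c x m₀ n₀ ℓ₁ ℓ S ℓ₃ Ux Uy M hP hUx hUy hM
  have h3 := (PP23_par hP).2.2.1
  have hS : 16 ≤ S := hP.2.2.2.1
  have kx : ∀ e : Bool, (if e = true then 1 else 0) < 6 ∧
      kol6 (if e = true then 1 else 0) = true := by
    intro e; cases e <;> exact ⟨by decide, by decide⟩
  have ky : ∀ e : Bool, (if e = true then 3 else 4) < 6 ∧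
      kol6 (if e = true then 3 else 4) = true := by
    intro e; cases e <;> exact ⟨by decide, by decide⟩
  have hUx' : ∀ e : Bool, CnS c true (Rg x (256 * ℓ₁) (32 * ℓ) (if e = true then 1 else 0))
      (Ux (if e = true then 1 else 0)) := fun e => (hUx.2.2 _ (kx e).1 (kx e).2).1
  have hUy' : ∀ e : Bool, CnS c true
      (Rg (yc x ℓ S) (256 * ℓ₁) (32 * ℓ) (if e = true then 3 else 4))
      (Uy (if e = true then 3 else 4)) := fun e => (hUy.2.2 _ (ky e).1 (ky e).2).1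
  have sx : ∀ e : Bool, Ux (if e = true then 1 else 0) ⊆
      Rg x (256 * ℓ₁) (32 * ℓ) (if e = true then 1 else 0) := fun e v hv => ((hUx' e).1 v hv).1
  have sy : ∀ e : Bool, Uy (if e = true then 3 else 4) ⊆
      Rg (yc x ℓ S) (256 * ℓ₁) (32 * ℓ) (if e = true then 3 else 4) :=
    fun e v hv => ((hUy' e).1 v hv).1
  have sm : ∀ e : Bool, M e ⊆ regL (midX x ℓ S e).all := fun e v hv => ((hM e).1.1 v hv).1
  have nx : ∀ e : Bool, (Ux (if e = true then 1 else 0) ∩ M e).Nonempty := fun e =>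
    PP23_hook h3 hUx (kx e).1 (kx e).2 rfl ((hM e).2 _ (PP23_first x ℓ S e))
  have ny : ∀ e : Bool, (Uy (if e = true then 3 else 4) ∩ M e).Nonempty := fun e =>
    PP23_hook h3 hUy (ky e).1 (ky e).2 rfl ((hM e).2 _ (PP23_last x ℓ S e hS))
  refine ⟨fun e => (Ux (if e = true then 1 else 0) ∪ M e) ∪ Uy (if e = true then 3 else 4),
    ?_, fun e => ⟨?_, ?_, ?_⟩⟩
  · have dxm : ∀ e : Bool, BDis (Ux (if e = true then 1 else 0)) (M (!e)) := fun e =>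
      (PP23_dX h14 hP e).mono (sx e) (sm (!e))
    have dym : ∀ e : Bool, BDis (Uy (if e = true then 3 else 4)) (M (!e)) := fun e =>
      (PP23_dY h14 hP e).mono (sy e) (sm (!e))
    have dmm : BDis (M true) (M false) := (PP23_dMM h14 hP).mono (sm true) (sm false)
    have dxy : ∀ e e' : Bool, BDis (Ux (if e = true then 1 else 0))
        (Uy (if e' = true then 3 else 4)) := fun e e' => (PP23_dXY hP _ _).mono (sx e) (sy e')
    have dxx : BDis (Ux 1) (Ux 0) := hUx.1.symm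
    have dyy : BDis (Uy 3) (Uy 4) := hUy.2.1
    rintro v ((hv | hv) | hv) w ((hw | hw) | hw)
    · exact dxx v hv w hw
    · exact dxm true v hv w hw
    · exact dxy true false v hv w hw
    · exact (dxm false).symm v hv w hw
    · exact dmm v hv w hw
    · exact (dym false).symm v hv w hw
    · exact (dxy false true).symm v hv w hw
    · exact dym true v hv w hw
    · exact dyy v hv w hw
  · refine PP23_union (PP23_union (PP23_mono (hUx' e) (PP23_inX hP _))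
      (PP23_mono (hM e).1 (PP23_inM h14 hP e)) (nx e)) (PP23_mono (hUy' e) (PP23_inY hP _)) ?_
    obtain ⟨a, h1, h2⟩ := ny e
    exact ⟨a, Or.inr h2, h1⟩
  · exact fun v hv => Or.inl (Or.inl hv)
  · exact fun v hv => Or.inr hv

end TP
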