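import Pool.Agent.helper2.SP.SpecTA
import Pool.Agent.helper61.DP.Base

/-!
# Project sp, module TA7: disjoint crossings keep their cyclic order
-/

set_option autoImplicit false

namespace TP.TA

open DP MeasureTheory

/-- rotation of three different points -/
theorem TA7_rot (hPO : PO_stmt) {x : V} {n : ℕ} (hn : 1 ≤ n) {a b c : V} (ha : a ∈ bd x n)
    (hb : b ∈ bd x n) (hc : c ∈ bd x n) (hab : a ≠ b) (hbc : b ≠ c) (hac : a ≠ c) :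
    onArc x n a c b ↔ onArc x n b a c := by
  have h1 : pos x n a ≠ pos x n b := fun h => hab (hPO.2.1 x n a b hn ha hb h)
  have h2 : pos x n b ≠ pos x n c := fun h => hbc (hPO.2.1 x n b c hn hb hc h)
  have h3 : pos x n a ≠ pos x n c := fun h => hac (hPO.2.1 x n a c hn ha hc h)
  unfold onArc
  simp only [ha, hb, hc, true_and]
  split_ifs <;> constructor <;> intro h <;> omega

/-- change of the middle point -/
theorem TA7_mid (h6 : TA6_stmt) {x : V} {m r n : ℕ} {A B C : Set V} {p q s U U' U'' u v w v' : V}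
    (hx : Even (x.1 + x.2)) (hm : 1 ≤ m) (hmn : m < n) (hmr : m ≤ r) (hrn : r ≤ n)
    (hA : A ⊆ ann x m n) (hB : B ⊆ ann x m n) (hC : C ⊆ ann x m n) (dAB : Disjoint A B)
    (dBC : Disjoint B C) (dAC : Disjoint A C) (hp : p ∈ bd x m) (hq : q ∈ bd x m)
    (hs : s ∈ bd x m) (hU : U ∈ bd x n) (hU' : U' ∈ bd x n) (hU'' : U'' ∈ bd x n)
    (cA : Con A p U) (cB : Con B q U') (cC : Con C s U'') (hu : u ∈ bd x r) (hv : v ∈ bd x r)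
    (hw : w ∈ bd x r) (hv' : v' ∈ bd x r) (iu : Con (A ∩ ann x m r) p u)
    (iv : Con (B ∩ ann x m r) q v) (iw : Con (C ∩ ann x m r) s w)
    (iv' : Con (B ∩ ann x m r) q v') : onArc x r u w v ↔ onArc x r u w v' := by
  have ju := iu.mono (Set.inter_subset_left)
  have jv := iv.mono (Set.inter_subset_left)
  have jw := iw.mono (Set.inter_subset_left)
  have jv' := iv'.mono (Set.inter_subset_left)
  exact h6 x m r n A C B u w v v' hx hm hmn hmr hrn hA hC hB dAC dBC.symm dAB hu hw hv hv'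
    ⟨p, hp, iu⟩ ⟨s, hs, iw⟩ ⟨q, hq, iv⟩ ⟨q, hq, iv'⟩ ⟨U, hU, ju.symm.trans cA⟩
    ⟨U'', hU'', jw.symm.trans cC⟩ ⟨U', hU', jv.symm.trans cB⟩ (jv.symm.trans jv')

/-- points in disjoint sets are different -/
theorem TA7_ne {A B : Set V} (d : Disjoint A B) {u v : V} (hu : u ∈ A) (hv : v ∈ B) : u ≠ v := by
  rintro rfl
  exact Set.disjoint_left.1 d hu hv

/-- change of the three points -/
theorem TA7_chg (hPO : PO_stmt) (h6 : TA6_stmt) {x : V} {m r n : ℕ} {A B C : Set V}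
    {p q s U U' U'' u v w u' v' w' : V}
    (hx : Even (x.1 + x.2)) (hm : 1 ≤ m) (hmn : m < n) (hmr : m ≤ r) (hrn : r ≤ n)
    (hA : A ⊆ ann x m n) (hB : B ⊆ ann x m n) (hC : C ⊆ ann x m n) (dAB : Disjoint A B)
    (dBC : Disjoint B C) (dAC : Disjoint A C) (hp : p ∈ bd x m) (hq : q ∈ bd x m)
    (hs : s ∈ bd x m) (hU : U ∈ bd x n) (hU' : U' ∈ bd x n) (hU'' : U'' ∈ bd x n)
    (cA : Con A p U) (cB : Con B q U') (cC : Con C s U'') (hu : u ∈ bd x r) (hv : v ∈ bd x r)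
    (hw : w ∈ bd x r) (hu' : u' ∈ bd x r) (hv' : v' ∈ bd x r) (hw' : w' ∈ bd x r)
    (iu : Con (A ∩ ann x m r) p u) (iv : Con (B ∩ ann x m r) q v)
    (iw : Con (C ∩ ann x m r) s w) (iu' : Con (A ∩ ann x m r) p u')
    (iv' : Con (B ∩ ann x m r) q v') (iw' : Con (C ∩ ann x m r) s w') :
    onArc x r u w v ↔ onArc x r u' w' v' := by
  have hr : 1 ≤ r := hm.trans hmr
  have mu := iu.mem_right.1
  have mv' := iv'.mem_right.1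
  have mw := iw.mem_right.1
  have mw' := iw'.mem_right.1
  have mu' := iu'.mem_right.1
  rw [TA7_mid h6 hx hm hmn hmr hrn hA hB hC dAB dBC dAC hp hq hs hU hU' hU'' cA cB cC hu hv hw hv'
      iu iv iw iv',
    TA7_rot hPO hr hu hv' hw (TA7_ne dAB mu mv') (TA7_ne dBC mv' mw) (TA7_ne dAC mu mw),
    TA7_mid h6 hx hm hmn hmr hrn hB hC hA dBC dAC.symm dAB.symm hq hs hp hU' hU'' hU cB cC cA
      hv' hw hu hw' iv' iw iu iw',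
    TA7_rot hPO hr hv' hw' hu (TA7_ne dBC mv' mw') (TA7_ne dAC mu mw').symm
      (TA7_ne dAB mu mv').symm,
    TA7_mid h6 hx hm hmn hmr hrn hC hA hB dAC.symm dAB dBC.symm hs hp hq hU'' hU hU' cC cA cB
      hw' hu hv' hu' iw' iu iv' iu',
    TA7_rot hPO hr hw' hu' hv' (TA7_ne dAC mu' mw').symm (TA7_ne dAB mu' mv')
      (TA7_ne dBC mv' mw').symm]

/-- first exit from the radius `r` -/
theorem TA7_exit {x : V} {m r : ℕ} {A : Set V} {p u : V} (hmr : m ≤ r) (hp : p ∈ bd x m)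
    (hu : u ∈ bd x (r + 1)) (h : Con (A ∩ ann x m (r + 1)) p u) :
    ∃ a b, a ∈ bd x r ∧ b ∈ bd x (r + 1) ∧ Adj a b ∧ Con (A ∩ ann x m r) p a ∧
      Con (A ∩ ann x m (r + 1)) p b := by
  have hp' : sd x p = m := hp
  have hu' : sd x u = r + 1 := hu
  obtain ⟨a, b, h1, h2, h3, h4⟩ := h.exit' (box x r) (by show sd x p ≤ r; omega)
    (by show ¬ sd x u ≤ r; omega)
  have ha : sd x a ≤ r := h1.mem_right.2
  have hb : r < sd x b := not_le.1 h3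
  have hb2 : sd x b ≤ r + 1 := h2.2.2
  have hab := h4.symm.sd_le x
  have c1 : Con (A ∩ ann x m r) p a := h1.mono (by
    rintro z ⟨⟨z1, z2⟩, z3⟩
    exact ⟨z1, z2.1, z3⟩)
  have c2 : Con (A ∩ ann x m (r + 1)) p b :=
    (h1.mono Set.inter_subset_left).tail h4 h2
  exact ⟨a, b, by show sd x a = r; omega, by show sd x b = r + 1; omega, h4, c1, c2⟩

/-- **TA7**. -/
theorem TA7 (hPO : PO_stmt) (h5 : TA5_stmt) (h6 : TA6_stmt) : TA7_stmt := by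
  intro x m n A₁ A₂ A₃ p₁ p₂ p₃ U₁ U₂ U₃ hx hm hmn hA₁ hA₂ hA₃ d12 d23 d13 hp₁ hp₂ hp₃ hU₁ hU₂
    hU₃ c₁ c₂ c₃
  have key : ∀ k : ℕ, m + k ≤ n → ∀ u₁ u₂ u₃ : V, u₁ ∈ bd x (m + k) → u₂ ∈ bd x (m + k) →
      u₃ ∈ bd x (m + k) → Con (A₁ ∩ ann x m (m + k)) p₁ u₁ → Con (A₂ ∩ ann x m (m + k)) p₂ u₂ →
      Con (A₃ ∩ ann x m (m + k)) p₃ u₃ → (onArc x m p₁ p₃ p₂ ↔ onArc x (m + k) u₁ u₃ u₂) := by
    intro k
    induction k with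
    | zero =>
      intro hk u₁ u₂ u₃ hu₁ hu₂ hu₃ i₁ i₂ i₃
      rw [Nat.add_zero] at hu₁ hu₂ hu₃ i₁ i₂ i₃ ⊢
      exact TA7_chg hPO h6 hx hm hmn le_rfl hmn.le hA₁ hA₂ hA₃ d12 d23 d13 hp₁ hp₂ hp₃ hU₁ hU₂ hU₃
        c₁ c₂ c₃ hp₁ hp₂ hp₃ hu₁ hu₂ hu₃ (DP.Con.refl i₁.mem_left) (DP.Con.refl i₂.mem_left)
        (DP.Con.refl i₃.mem_left) i₁ i₂ i₃
    | succ k ih =>
      intro hk u₁ u₂ u₃ hu₁ hu₂ hu₃ i₁ i₂ i₃
      have e : m + (k + 1) = m + k + 1 := by omega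
      rw [e] at hk hu₁ hu₂ hu₃ i₁ i₂ i₃ ⊢
      obtain ⟨a₁, b₁, ha₁, hb₁, j₁, s₁, t₁⟩ := TA7_exit (Nat.le_add_right m k) hp₁ hu₁ i₁
      obtain ⟨a₂, b₂, ha₂, hb₂, j₂, s₂, t₂⟩ := TA7_exit (Nat.le_add_right m k) hp₂ hu₂ i₂
      obtain ⟨a₃, b₃, ha₃, hb₃, j₃, s₃, t₃⟩ := TA7_exit (Nat.le_add_right m k) hp₃ hu₃ i₃
      rw [ih (by omega) a₁ a₂ a₃ ha₁ ha₂ ha₃ s₁ s₂ s₃,
        h5 x (m + k) a₁ a₂ a₃ b₁ b₂ b₃ hx (by omega) ha₁ ha₂ ha₃ hb₁ hb₂ hb₃ j₁ j₂ j₃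
          (TA7_ne d12 s₁.mem_right.1 s₂.mem_right.1) (TA7_ne d23 s₂.mem_right.1 s₃.mem_right.1)
          (TA7_ne d13 s₁.mem_right.1 s₃.mem_right.1)
          (TA7_ne d12 t₁.mem_right.1 t₂.mem_right.1) (TA7_ne d23 t₂.mem_right.1 t₃.mem_right.1)
          (TA7_ne d13 t₁.mem_right.1 t₃.mem_right.1)]
      exact TA7_chg hPO h6 hx hm hmn (by omega) hk hA₁ hA₂ hA₃ d12 d23 d13 hp₁ hp₂ hp₃ hU₁ hU₂ hU₃
        c₁ c₂ c₃ hb₁ hb₂ hb₃ hu₁ hu₂ hu₃ t₁ t₂ t₃ i₁ i₂ i₃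
  have hk : m + (n - m) = n := by omega
  have h := key (n - m) (by omega) U₁ U₂ U₃
  rw [hk] at h
  have g₁ : A₁ ⊆ A₁ ∩ ann x m n := fun z hz => ⟨hz, hA₁ hz⟩
  have g₂ : A₂ ⊆ A₂ ∩ ann x m n := fun z hz => ⟨hz, hA₂ hz⟩
  have g₃ : A₃ ⊆ A₃ ∩ ann x m n := fun z hz => ⟨hz, hA₃ hz⟩
  exact h hU₁ hU₂ hU₃ (c₁.mono g₁) (c₂.mono g₂) (c₃.mono g₃)

end TP.TA
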