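import Pool.Agent.helper31.SP.SpecTL
import Pool.Agent.helper95.DP.Fin

/-!
# Project sp, module TL3: one- and two-point functions of the spectral sample

The Fourier coefficient of `h` and of the difference `D u h = (h - h ∘ flip u) / 2` at a set
containing `u` agree; Bessel's inequality for the functions `∏ v ∈ T, sg (b v)`.
-/

namespace TP

open DP MeasureTheory

/-- The character of `T`. -/
noncomputable def TL3_ch (T : Finset V) (b : V → Bool) : ℝ := ∏ v ∈ T, sg (b v)

/-- Flip of the coin `u`. -/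
def TL3_fl (u : V) (b : V → Bool) : V → Bool := Function.update b u (!(b u))

/-- Difference in direction `u`. -/
noncomputable def TL3_D (u : V) (h : (V → Bool) → ℝ) (b : V → Bool) : ℝ :=
  (h b - h (TL3_fl u b)) / 2

theorem TL3_sg_mul (k : Bool) : sg k * sg k = 1 := by cases k <;> simp [sg]

theorem TL3_sg_not (k : Bool) : sg (!k) = - sg k := by cases k <;> simp [sg]

theorem TL3_fl_fl (u : V) (b : V → Bool) : TL3_fl u (TL3_fl u b) = b := by
  funext v
  unfold TL3_fl
  by_cases h : v = u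
  · subst h; simp
  · simp [h]

theorem TL3_fl_ne {u v : V} (h : v ≠ u) (b : V → Bool) : TL3_fl u b v = b v := by
  unfold TL3_fl
  rw [Function.update_of_ne h]

theorem TL3_fl_self (u : V) (b : V → Bool) : TL3_fl u b u = !(b u) := by
  unfold TL3_fl
  simp

theorem TL3_lf_fl {Λ : Finset V} {h : (V → Bool) → ℝ} (hh : LF Λ h) (u : V) :
    LF Λ (fun b => h (TL3_fl u b)) := by
  intro b b' hb
  refine hh _ _ fun v hv => ?_
  by_cases hvu : v = u
  · subst hvu
    rw [TL3_fl_self, TL3_fl_self, hb v hv]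
  · rw [TL3_fl_ne hvu, TL3_fl_ne hvu, hb v hv]

theorem TL3_lf_D {Λ : Finset V} {h : (V → Bool) → ℝ} (hh : LF Λ h) (u : V) :
    LF Λ (TL3_D u h) :=
  hh.comp₂ (TL3_lf_fl hh u) (fun x y => (x - y) / 2)

theorem TL3_lf_ch {Λ T : Finset V} (hT : T ⊆ Λ) : LF Λ (TL3_ch T) := by
  intro b b' hb
  unfold TL3_ch
  exact Finset.prod_congr rfl fun v hv => by rw [hb v (hT hv)]

/-- Invariance of the expectation under a flip. -/
theorem TL3_inv {Λ : Finset V} {h : (V → Bool) → ℝ} (hh : LF Λ h) (u : V) :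
    ex1 (fun b => h (TL3_fl u b)) = ex1 h := by
  rw [ex1_site hh u, ex1_site (TL3_lf_fl hh u) u]
  have h1 : ∀ (b : V → Bool) (a : Bool), TL3_fl u (Function.update b u a) =
      Function.update b u (!a) := by
    intro b a
    unfold TL3_fl
    simp
  simp only [h1, Bool.not_true, Bool.not_false]
  rw [add_comm]

theorem TL3_ch_fl {T : Finset V} {u : V} (hu : u ∈ T) (b : V → Bool) :
    TL3_ch T (TL3_fl u b) = - TL3_ch T b := by
  unfold TL3_ch
  rw [← Finset.mul_prod_erase T _ hu, ← Finset.mul_prod_erase T (fun v => sg (b v)) hu,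
    TL3_fl_self, TL3_sg_not, neg_mul]
  congr 2
  refine Finset.prod_congr rfl fun v hv => ?_
  rw [TL3_fl_ne (Finset.ne_of_mem_erase hv)]

theorem TL3_ch_fl' {T : Finset V} {u : V} (hu : u ∉ T) (b : V → Bool) :
    TL3_ch T (TL3_fl u b) = TL3_ch T b := by
  unfold TL3_ch
  refine Finset.prod_congr rfl fun v hv => ?_
  have hne : v ≠ u := by
    rintro rfl
    exact hu hv
  rw [TL3_fl_ne hne]

theorem TL3_ch_sq (T : Finset V) (b : V → Bool) : TL3_ch T b * TL3_ch T b = 1 := by
  unfold TL3_ch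
  rw [← Finset.prod_mul_distrib]
  exact Finset.prod_eq_one fun v _ => TL3_sg_mul _

theorem TL3_zero {Λ : Finset V} {h : (V → Bool) → ℝ} (hh : LF Λ h) (u : V)
    (hu : ∀ b, h (TL3_fl u b) = - h b) : ex1 h = 0 := by
  have h1 := TL3_inv hh u
  simp only [hu] at h1
  have h2 : ex1 (fun b => - h b) = - ex1 h := by
    have := ex1_mul (-1) h
    simpa using this
  linarith

/-- Orthonormality. -/
theorem TL3_orth {Λ S T : Finset V} (hS : S ⊆ Λ) (hT : T ⊆ Λ) :
    ex1 (fun b => TL3_ch S b * TL3_ch T b) = if S = T then 1 else 0 := by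
  have hlf : LF Λ (fun b => TL3_ch S b * TL3_ch T b) :=
    (TL3_lf_ch hS).comp₂ (TL3_lf_ch hT) (· * ·)
  split_ifs with h
  · subst h
    simp only [TL3_ch_sq]
    exact ex1_const 1
  · have h1 : ∃ u, (u ∈ S ∧ u ∉ T) ∨ (u ∉ S ∧ u ∈ T) := by
      by_contra hcon
      push Not at hcon
      apply h
      ext u
      have := hcon u
      constructor
      · intro hu
        exact this.1 hu
      · intro hu
        by_contra hu'
        exact (this.2 hu') hu
    obtain ⟨u, hu⟩ := h1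
    apply TL3_zero hlf u
    intro b
    rcases hu with ⟨h1, h2⟩ | ⟨h1, h2⟩
    · rw [TL3_ch_fl h1, TL3_ch_fl' h2, neg_mul]
    · rw [TL3_ch_fl' h1, TL3_ch_fl h2, mul_neg]

/-- The coefficients of the difference. -/
theorem TL3_coef {Λ T : Finset V} {h : (V → Bool) → ℝ} (hh : LF Λ h) (hT : T ⊆ Λ) {u : V}
    (hu : u ∈ T) : ex1 (fun b => TL3_D u h b * TL3_ch T b) = ex1 (fun b => h b * TL3_ch T b) := by
  have hlf : LF Λ (fun b => h b * TL3_ch T b) := hh.comp₂ (TL3_lf_ch hT) (· * ·)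
  have h1 := TL3_inv hlf u
  simp only [TL3_ch_fl hu] at h1
  have h2 : LF Λ (fun b => h (TL3_fl u b) * - TL3_ch T b) :=
    (TL3_lf_fl hh u).comp₂ (TL3_lf_ch hT) (fun x y => x * -y)
  have h3 : (fun b => TL3_D u h b * TL3_ch T b) =
      fun b => (1 / 2) * (h b * TL3_ch T b + h (TL3_fl u b) * - TL3_ch T b) := by
    funext b
    unfold TL3_D
    ring
  rw [h3, ex1_mul, ex1_add hlf h2, h1]
  ring

theorem TL3_ex1_sum {Λ : Finset V} {ι : Type} (s : Finset ι) (f : ι → (V → Bool) → ℝ)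
    (hf : ∀ i ∈ s, LF Λ (f i)) : ex1 (fun b => ∑ i ∈ s, f i b) = ∑ i ∈ s, ex1 (f i) := by
  unfold ex1
  exact integral_finsetSum _ fun i hi => (hf i hi).integrable _

/-- Bessel's inequality. -/
theorem TL3_bessel {Λ : Finset V} {g : (V → Bool) → ℝ} (hg : LF Λ g) (s : Finset (Finset V))
    (hs : ∀ T ∈ s, T ⊆ Λ) :
    ∑ T ∈ s, ex1 (fun b => g b * TL3_ch T b) ^ 2 ≤ ex1 (fun b => g b * g b) := by
  set c : Finset V → ℝ := fun T => ex1 (fun b => g b * TL3_ch T b) with hc
  set p : (V → Bool) → ℝ := fun b => ∑ T ∈ s, c T * TL3_ch T b with hp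
  have hplf : LF Λ p := by
    intro b b' hb
    rw [hp]
    simp only
    exact Finset.sum_congr rfl fun T hT => by rw [TL3_lf_ch (hs T hT) b b' hb]
  have h1 : ex1 (fun b => g b * p b) = ∑ T ∈ s, c T ^ 2 := by
    have e1 : (fun b => g b * p b) = fun b => ∑ T ∈ s, c T * (g b * TL3_ch T b) := by
      funext b
      rw [hp]
      simp only
      rw [Finset.mul_sum]
      exact Finset.sum_congr rfl fun T _ => by ring
    rw [e1, TL3_ex1_sum (Λ := Λ) s (fun T b => c T * (g b * TL3_ch T b)) (fun T hT =>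
      hg.comp₂ (TL3_lf_ch (hs T hT)) (fun x y => c T * (x * y)))]
    refine Finset.sum_congr rfl fun T _ => ?_
    rw [ex1_mul, sq]
  have h2 : ex1 (fun b => p b * p b) = ∑ T ∈ s, c T ^ 2 := by
    have e1 : (fun b => p b * p b) = fun b => ∑ T ∈ s, c T * (p b * TL3_ch T b) := by
      funext b
      rw [hp]
      simp only
      rw [Finset.mul_sum]
      exact Finset.sum_congr rfl fun T _ => by ring
    rw [e1, TL3_ex1_sum (Λ := Λ) s (fun T b => c T * (p b * TL3_ch T b)) (fun T hT =>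
      hplf.comp₂ (TL3_lf_ch (hs T hT)) (fun x y => c T * (x * y)))]
    refine Finset.sum_congr rfl fun T hT => ?_
    rw [ex1_mul, sq]
    congr 1
    have e2 : (fun b => p b * TL3_ch T b) =
        fun b => ∑ S ∈ s, c S * (TL3_ch S b * TL3_ch T b) := by
      funext b
      rw [hp]
      simp only
      rw [Finset.sum_mul]
      exact Finset.sum_congr rfl fun S _ => by ring
    rw [e2, TL3_ex1_sum (Λ := Λ) s (fun S b => c S * (TL3_ch S b * TL3_ch T b)) (fun S hS =>
      (TL3_lf_ch (hs S hS)).comp₂ (TL3_lf_ch (hs T hT)) (fun x y => c S * (x * y)))]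
    have e3 : ∀ S ∈ s, ex1 (fun b => c S * (TL3_ch S b * TL3_ch T b)) =
        if S = T then c S else 0 := by
      intro S hS
      rw [ex1_mul, TL3_orth (hs S hS) (hs T hT)]
      split_ifs <;> simp
    rw [Finset.sum_congr rfl e3, Finset.sum_ite_eq' s T c, if_pos hT]
  have h3 : 0 ≤ ex1 (fun b => (g b - p b) * (g b - p b)) :=
    ex1_nonneg fun b => mul_self_nonneg _
  have h4 : (fun b => (g b - p b) * (g b - p b)) =
      fun b => (g b * g b + p b * p b) - 2 * (g b * p b) := by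
    funext b; ring
  have l1 : LF Λ (fun b => g b * g b) := hg.comp (fun x => x * x)
  have l2 : LF Λ (fun b => p b * p b) := hplf.comp (fun x => x * x)
  have l3 : LF Λ (fun b => g b * g b + p b * p b) := l1.comp₂ l2 (· + ·)
  have l4 : LF Λ (fun b => 2 * (g b * p b)) := hg.comp₂ hplf (fun x y => 2 * (x * y))
  rw [h4, ex1_sub l3 l4, ex1_add l1 l2, ex1_mul, h1, h2] at h3
  linarith

theorem TL3_pmf_lf {Λ : Finset V} {F : Set (V → Bool)} (hF : DP.Dep F (Λ : Set V)) :
    LF Λ (pmf F) := by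
  have h1 : LF Λ (ind F) := DP.Dep.lf hF
  exact h1.comp (fun x => 2 * x - 1)

theorem TL3_pmf_of_mem {F : Set (V → Bool)} {b : V → Bool} (h : b ∈ F) : pmf F b = 1 := by
  unfold pmf
  rw [Set.indicator_of_mem h]
  norm_num

theorem TL3_pmf_of_notMem {F : Set (V → Bool)} {b : V → Bool} (h : b ∉ F) : pmf F b = -1 := by
  unfold pmf
  rw [Set.indicator_of_notMem h]
  norm_num

theorem TL3_pmf_abs (F : Set (V → Bool)) (b : V → Bool) : |pmf F b| ≤ 1 := by
  by_cases h : b ∈ F
  · rw [TL3_pmf_of_mem h]; norm_num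
  · rw [TL3_pmf_of_notMem h]; norm_num

theorem TL3_D_abs {h : (V → Bool) → ℝ} (hh : ∀ b, |h b| ≤ 1) (u : V) (b : V → Bool) :
    |TL3_D u h b| ≤ 1 := by
  have h1 := abs_le.1 (hh b)
  have h2 := abs_le.1 (hh (TL3_fl u b))
  unfold TL3_D
  rw [abs_le]
  constructor <;> linarith [h1.1, h1.2, h2.1, h2.2]

/-- A bounded local function which vanishes off `E`. -/
theorem TL3_le_Pr {Λ : Finset V} {g : (V → Bool) → ℝ} (hg : LF Λ g) (h1 : ∀ b, |g b| ≤ 1)
    (E : Set (V → Bool)) (hE : ∀ b, g b ≠ 0 → b ∈ E) : ex1 (fun b => g b * g b) ≤ Pr E := by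
  have hD : DP.Dep {b | g b ≠ 0} (Λ : Set V) := by
    intro b b' hb
    show g b ≠ 0 ↔ g b' ≠ 0
    rw [hg b b' hb]
  have h2 : ex1 (fun b => g b * g b) ≤ ex1 (ind {b | g b ≠ 0}) := by
    refine ex1_mono (hg.comp (fun x => x * x)) hD.lf fun b => ?_
    by_cases hb : g b = 0
    · rw [hb, ind_of_notMem (by simpa using hb)]
      norm_num
    · rw [ind_of_mem (show b ∈ {b | g b ≠ 0} from hb)]
      have h3 := abs_le.1 (h1 b)
      nlinarith [h3.1, h3.2]
  rw [← Pr_eq hD] at h2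
  exact h2.trans (measureReal_mono fun b hb => hE b hb)

/-- Sets containing `u`. -/
theorem TL3_sum {Λ : Finset V} {F : Set (V → Bool)}
    {g : (V → Bool) → ℝ} (hg : LF Λ g) (A : Set V → Prop)
    (hA : ∀ T : Finset V, T ⊆ Λ → A (T : Set V) → ex1 (fun b => g b * TL3_ch T b) = fh F T) :
    PSF F Λ A ≤ ex1 (fun b => g b * g b) := by
  classical
  unfold PSF
  rw [← Finset.sum_filter]
  refine le_trans (le_of_eq ?_) (TL3_bessel hg (Λ.powerset.filter fun T => A (T : Set V))
    (fun T hT => Finset.mem_powerset.1 (Finset.mem_filter.1 hT).1))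
  refine Finset.sum_congr (by congr) fun T hT => ?_
  obtain ⟨h1, h2⟩ := Finset.mem_filter.1 hT
  rw [hA T (Finset.mem_powerset.1 h1) h2]

theorem TL3 : TL3_stmt := by
  intro Λ F hF
  have hlf := TL3_pmf_lf hF
  -- a nonzero difference
  have hne : ∀ (u : V) (b : V → Bool), TL3_D u (pmf F) b ≠ 0 →
      (b ∈ F ∧ TL3_fl u b ∉ F) ∨ (b ∉ F ∧ TL3_fl u b ∈ F) := by
    intro u b hb
    by_cases h1 : b ∈ F <;> by_cases h2 : TL3_fl u b ∈ F
    · exfalso; apply hb; unfold TL3_D; rw [TL3_pmf_of_mem h1, TL3_pmf_of_mem h2]; norm_num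
    · exact Or.inl ⟨h1, h2⟩
    · exact Or.inr ⟨h1, h2⟩
    · exfalso; apply hb; unfold TL3_D; rw [TL3_pmf_of_notMem h1, TL3_pmf_of_notMem h2]; norm_num
  have hpiv : ∀ (B : Set V) (u : V), u ∈ B → ∀ b b' : V → Bool, (∀ v, v ∉ B → b' v = b v) →
      TL3_D u (pmf F) b' ≠ 0 → b ∈ Piv B F := by
    intro B u hu b b' hbb hD
    have h3 : ∀ v, v ∉ B → TL3_fl u b' v = b v := by
      intro v hv
      have hne' : v ≠ u := by
        rintro rfl
        exact hv hu
      rw [TL3_fl_ne hne', hbb v hv]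
    rcases hne u b' hD with ⟨h1, h2⟩ | ⟨h1, h2⟩
    · exact ⟨b', TL3_fl u b', fun v hv => ⟨hbb v hv, h3 v hv⟩, h1, h2⟩
    · exact ⟨TL3_fl u b', b', fun v hv => ⟨h3 v hv, hbb v hv⟩, h2, h1⟩
  constructor
  · intro u
    refine (TL3_sum (TL3_lf_D hlf u) (fun X => u ∈ X) ?_).trans ?_
    · intro T hT hu
      rw [TL3_coef hlf hT (Finset.mem_coe.1 hu)]
      rfl
    · refine TL3_le_Pr (TL3_lf_D hlf u) (TL3_D_abs (TL3_pmf_abs F) u) _ fun b hb => ?_
      exact hpiv {u} u rfl b b (fun _ _ => rfl) hb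
  · intro u v huv
    have hD2 : LF Λ (TL3_D v (TL3_D u (pmf F))) := TL3_lf_D (TL3_lf_D hlf u) v
    refine (TL3_sum hD2 (fun X => u ∈ X ∧ v ∈ X) ?_).trans ?_
    · rintro T hT ⟨hu, hv⟩
      rw [TL3_coef (TL3_lf_D hlf u) hT (Finset.mem_coe.1 hv), TL3_coef hlf hT (Finset.mem_coe.1 hu)]
      rfl
    · refine TL3_le_Pr hD2 (TL3_D_abs (TL3_D_abs (TL3_pmf_abs F) u) v) _ fun b hb => ?_
      -- `D v (D u) = D u (D v)`
      have hcomm : TL3_fl u (TL3_fl v b) = TL3_fl v (TL3_fl u b) := by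
        unfold TL3_fl
        rw [Function.update_of_ne huv, Function.update_of_ne huv.symm]
        exact Function.update_comm huv.symm _ _ _
      have hcomm' : TL3_D v (TL3_D u (pmf F)) b = TL3_D u (TL3_D v (pmf F)) b := by
        simp only [TL3_D]
        rw [hcomm]
        ring
      -- a point where the difference in direction `u` does not vanish
      have key : ∀ (x y : V), TL3_D y (TL3_D x (pmf F)) b ≠ 0 →
          ∃ a, TL3_D x (pmf F) (Function.update b y a) ≠ 0 := by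
        intro x y h
        by_contra hcon
        push Not at hcon
        apply h
        have e1 := hcon (b y)
        have e2 := hcon (!(b y))
        rw [Function.update_eq_self] at e1
        show (TL3_D x (pmf F) b - TL3_D x (pmf F) (TL3_fl y b)) / 2 = 0
        rw [e1]
        have e3 : TL3_D x (pmf F) (TL3_fl y b) = 0 := e2
        rw [e3]
        norm_num
      obtain ⟨a, ha⟩ := key u v hb
      obtain ⟨a', ha'⟩ := key v u (by rw [← hcomm']; exact hb)
      refine ⟨?_, ⟨a, ?_⟩, ⟨a', ?_⟩⟩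
      · refine hpiv {u, v} u (Or.inl rfl) b (Function.update b v a) (fun w hw => ?_) ha
        rw [Function.update_of_ne (fun h => hw (Or.inr h))]
      · exact hpiv {u} u rfl _ _ (fun _ _ => rfl) ha
      · exact hpiv {v} v rfl _ _ (fun _ _ => rfl) ha'

end TP
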