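import Pool.Agent.helper33.SP.SpecC2S

/-!
# Project sp, module VA10: exact zero
-/

set_option autoImplicit false

namespace TP

open DP MeasureTheory

/-- equality of the values at related configurations -/
def VA10_rel (r : (V → Bool) → (V → Bool) → Prop) (Z : (V → Bool) → ℝ) : Prop :=
  ∀ b b', r b b' → Z b = Z b'

/-- equality outside `U` -/
def VA10_off (U : Set V) (b b' : V → Bool) : Prop := ∀ v, v ∉ U → b v = b' v

/-- the coins of a block -/
def VA10_bl (g h : ℕ) (z : V) (q : ℕ) : Set V :=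
  {v | 2 ^ (q - g - 2) < sd z v ∧ sd z v < 2 ^ (q + h + g + 2)}

theorem VA10_mul {r : (V → Bool) → (V → Bool) → Prop} {Z Z' : (V → Bool) → ℝ}
    (h : VA10_rel r Z) (h' : VA10_rel r Z') : VA10_rel r (fun b => Z b * Z' b) := by
  intro b b' hb
  show Z b * Z' b = Z b' * Z' b'
  rw [h b b' hb, h' b b' hb]

theorem VA10_prod {r : (V → Bool) → (V → Bool) → Prop} (z : V) (g h P J j : ℕ)
    (hw : ∀ l, j < l → l < J → VA10_rel r (wf z g h P l)) :
    VA10_rel r (fun b => ∏ l ∈ Finset.Ioo j J, (1 - wf z g h P l b)) := by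
  intro b b' hb
  refine Finset.prod_congr rfl fun l hl => ?_
  rw [Finset.mem_Ioo] at hl
  rw [hw l hl.1 hl.2 b b' hb]

theorem VA10_Rf {r : (V → Bool) → (V → Bool) → Prop} (z : V) (g h P J j : ℕ) (hj : j < J)
    (hw : ∀ l, j ≤ l → l < J → VA10_rel r (wf z g h P l)) :
    VA10_rel r (Rf z g h P J j) :=
  VA10_mul (hw j le_rfl hj) (VA10_prod z g h P J j fun l h1 h2 => hw l h1.le h2)

theorem VA10_fin_iff (Z : (V → Bool) → ℝ) :
    FinR Z ↔ ∃ Λ : Finset V, VA10_rel (fun b b' => ∀ v ∈ Λ, b v = b' v) Z := Iff.rfl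

theorem VA10_fin_mul {Z Z' : (V → Bool) → ℝ} (h : FinR Z) (h' : FinR Z') :
    FinR (fun b => Z b * Z' b) := by
  classical
  obtain ⟨Λ, hΛ⟩ := h
  obtain ⟨Λ', hΛ'⟩ := h'
  refine ⟨Λ ∪ Λ', ?_⟩
  intro b b' hb
  show Z b * Z' b = Z b' * Z' b'
  rw [hΛ b b' fun v hv => hb v (by simp only [Finset.coe_union]; exact Or.inl hv),
    hΛ' b b' fun v hv => hb v (by simp only [Finset.coe_union]; exact Or.inr hv)]

theorem VA10_fin_one_sub {Z : (V → Bool) → ℝ} (h : FinR Z) : FinR (fun b => 1 - Z b) := by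
  obtain ⟨Λ, hΛ⟩ := h
  refine ⟨Λ, ?_⟩
  intro b b' hb
  show 1 - Z b = 1 - Z b'
  rw [hΛ b b' hb]

theorem VA10_fin_prod (S : Finset ℕ) (F : ℕ → (V → Bool) → ℝ) (h : ∀ l ∈ S, FinR (F l)) :
    FinR (fun b => ∏ l ∈ S, F l b) := by
  classical
  induction S using Finset.induction_on with
  | empty => exact ⟨∅, fun b b' _ => by simp⟩
  | insert a S ha ih =>
    have h1 := VA10_fin_mul (h a (Finset.mem_insert_self _ _))
      (ih fun l hl => h l (Finset.mem_insert_of_mem hl))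
    have h2 : (fun b => ∏ l ∈ insert a S, F l b) = fun b => F a b * ∏ l ∈ S, F l b := by
      funext b
      rw [Finset.prod_insert ha]
    rw [h2]
    exact h1

theorem VA10_zx (g h P j : ℕ) : g + 4 ≤ zx g h P j := by
  unfold zx
  omega

theorem VA10_fin_wf (h5 : VA5_stmt) (z : V) (g h P l : ℕ) (hz : (z.1 + z.2) % 2 = 0) (hg : 1 ≤ g)
    (hh' : 1 ≤ h) : FinR (wf z g h P l) :=
  (h5 z (zx g h P l) h g hz (VA10_zx g h P l) hg hh').2.2.2.2.2

theorem VA10_fin_Rf (h5 : VA5_stmt) (z : V) (g h P J j : ℕ) (hz : (z.1 + z.2) % 2 = 0) (hg : 1 ≤ g)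
    (hh' : 1 ≤ h) : FinR (Rf z g h P J j) :=
  VA10_fin_mul (VA10_fin_wf h5 z g h P j hz hg hh')
    (VA10_fin_prod _ _ fun l _ => VA10_fin_one_sub (VA10_fin_wf h5 z g h P l hz hg hh'))

theorem VA10_fin_tail (h5 : VA5_stmt) (z : V) (g h P J j : ℕ) (hz : (z.1 + z.2) % 2 = 0)
    (hg : 1 ≤ g) (hh' : 1 ≤ h) :
    FinR (fun b => ∏ l ∈ Finset.Ioo j J, (1 - wf z g h P l b)) :=
  VA10_fin_prod _ _ fun l _ => VA10_fin_one_sub (VA10_fin_wf h5 z g h P l hz hg hh')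

theorem VA10_wf_off (h7 : VA7_stmt) (z : V) (g h P l : ℕ) (U : Set V) (hz : (z.1 + z.2) % 2 = 0)
    (hg : 1 ≤ g) (hh' : 1 ≤ h) (hd : Disjoint U (VA10_bl g h z (zx g h P l))) :
    VA10_rel (VA10_off U) (wf z g h P l) := by
  intro b b' hb
  refine ((h7 z (zx g h P l) h g hz (VA10_zx g h P l) hg hh').2.2.1 b b' ?_).1
  intro v h1 h2
  exact hb v fun hU => Set.disjoint_left.1 hd hU ⟨h1, h2⟩

theorem VA10_wf_flp (h7 : VA7_stmt) (z : V) (g h P l : ℕ) (B : Set V) (hz : (z.1 + z.2) % 2 = 0)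
    (hg : 1 ≤ g) (hh' : 1 ≤ h) (hd : VA10_bl g h z (zx g h P l) ⊆ B) :
    VA10_rel (fun b b' => b' = flp B b) (wf z g h P l) := by
  intro b b' hb
  subst hb
  exact ((h7 z (zx g h P l) h g hz (VA10_zx g h P l) hg hh').2.2.2 B b
    fun v h1 h2 => hd ⟨h1, h2⟩).symm

theorem VA10_off_flp {B : Set V} {Z : (V → Bool) → ℝ} (h : VA10_rel (VA10_off B) Z) :
    VA10_rel (fun b b' => b' = flp B b) Z := by
  intro b b' hb
  refine h b b' fun v hv => ?_
  subst hb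
  unfold flp
  rw [if_neg hv]

/-- one block -/
theorem VA10_block (h2 : VA2_stmt) (h4 : UJ4_stmt) (h5 : VA5_stmt) (h6 : VA6_stmt)
    (h7 : VA7_stmt) (hu : UJ5_stmt) (i N q h g : ℕ) (z : V) (W U1 U2 U : Set V)
    (Z : (V → Bool) → ℝ) (hz : (z.1 + z.2) % 2 = 0) (hq : g + 4 ≤ q) (hg : 1 ≤ g) (hh' : 1 ≤ h)
    (hN : q + h + g + 1 ≤ N) (hbox : box z (2 ^ N) ⊆ rect 1 (2 * 2 ^ i) 0 (hh (2 ^ i)))
    (hZF : FinR Z) (hZA : VA10_rel (VA10_off (Ag z q h)) Z)
    (hZB : VA10_rel (fun b b' => b' = flp (fI z q) b) Z)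
    (hAW : Ag z q h ⊆ W) (hU1 : Disjoint U1 W) (hU2 : Disjoint U2 W) (hU12 : Disjoint U1 U2)
    (hU : U = U1 ∨ U = U2) (hZU : VA10_rel (VA10_off U) Z) (hblU : Disjoint U (VA10_bl g h z q))
    (hUq : ∀ v ∈ U, sd z v ≤ 2 ^ (q + h)) (b : V → Bool) :
    av W (dl U1 (dl U2 (fun b => Z b * (wpar z q h g b * pmf (Fc i) b)))) (flp (fI z q \ W) b) =
      - av W (dl U1 (dl U2 (fun b => Z b * (wpar z q h g b * pmf (Fc i) b)))) b := by
  have hf : FinR (pmf (Fc i)) := by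
    refine ⟨VV i, ?_⟩
    intro b b' hb
    have := (h4 i).1 b b' hb
    unfold pmf
    by_cases hm : b ∈ Fc i
    · rw [Set.indicator_of_mem hm, Set.indicator_of_mem (this.1 hm)]
      simp
    · rw [Set.indicator_of_notMem hm, Set.indicator_of_notMem (fun h => hm (this.2 h))]
  have h5' := h5 z q h g hz hq hg hh'
  have h7' := h7 z q h g hz hq hg hh'
  have hwf : FinR (fun b => wpar z q h g b * pmf (Fc i) b) := VA10_fin_mul h5'.2.2.2.2.2 hf
  set N0 : (V → Bool) → ℝ := fun b => Z b * (av (Ag z q h) (wpar z q h g) b * gK i z q h b) with hN0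
  have hN0U : ∀ b b' : V → Bool, (∀ v, v ∉ U → b v = b' v) → N0 b = N0 b' := by
    intro b b' hb
    simp only [hN0]
    rw [hZU b b' hb, (h7'.2.2.1 b b' fun v h1 h2 =>
      hb v fun hU => Set.disjoint_left.1 hblU hU ⟨h1, h2⟩).2,
      (h5'.2.2.2.2.1 i).2 b b' fun v hv => hb v fun hU => absurd (hUq v hU) (not_le.2 hv)]
  refine h2 W (Ag z q h) (fI z q) U1 U2 _ N0 (VA10_fin_mul hZF hwf) hAW ?_ hU1 hU2 hU12 ?_ ?_ b
  · rw [Set.disjoint_left]
    intro v hv hv'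
    exact absurd hv.1 (not_lt.2 hv')
  · rcases hU with rfl | rfl
    · exact Or.inl hN0U
    · exact Or.inr hN0U
  · intro b
    have e1 := fun b => hu.2.2.2.1 (Ag z q h) (fun b => wpar z q h g b * pmf (Fc i) b) Z hwf hZF
      (fun b b' hb => hZA b b' hb) b
    rw [e1, e1, ← hZB b _ rfl, ← mul_add,
      h6 i N q h g z hz hq hg hh' hN hbox b]

theorem VA10_even (x y : V) (a : ℕ) (ha : 1 ≤ a) (hx : (x.1 + x.2) % 2 = 0)
    (hy : y = (x.1 + 2 ^ a, x.2) ∨ y = (x.1, x.2 + 2 ^ a)) : (y.1 + y.2) % 2 = 0 := by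
  obtain ⟨c, rfl⟩ : ∃ c, a = c + 1 := ⟨a - 1, by omega⟩
  have h1 : (2 : ℤ) ^ (c + 1) = 2 * 2 ^ c := by ring
  rcases hy with rfl | rfl
  · simp only
    rw [h1]
    omega
  · simp only
    rw [h1]
    omega

theorem VA10_box (x y : V) (a n N : ℕ) (hy : y = (x.1 + 2 ^ a, x.2) ∨ y = (x.1, x.2 + 2 ^ a))
    (hn : n ≤ a) (hN : a + 1 ≤ N) : box y (2 ^ n) ⊆ box x (2 ^ N) := by
  intro v hv
  have h1 : sd y v ≤ 2 ^ n := hv
  show sd x v ≤ 2 ^ N
  have h2 : (2 : ℕ) ^ n ≤ 2 ^ a := Nat.pow_le_pow_right (by norm_num) hn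
  have h3 : (2 : ℕ) ^ (a + 1) ≤ 2 ^ N := Nat.pow_le_pow_right (by norm_num) hN
  have h4 : (2 : ℕ) ^ (a + 1) = 2 * 2 ^ a := by ring
  have h5 : (2 : ℤ) ^ a = ((2 ^ a : ℕ) : ℤ) := by push_cast; rfl
  unfold sd at h1 ⊢
  rcases hy with rfl | rfl
  · simp only at h1
    rw [h5] at h1
    generalize (2 : ℕ) ^ a = A at *
    generalize (2 : ℕ) ^ n = B at *
    generalize (2 : ℕ) ^ N = C at *
    omega
  · simp only at h1
    rw [h5] at h1
    generalize (2 : ℕ) ^ a = A at *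
    generalize (2 : ℕ) ^ n = B at *
    generalize (2 : ℕ) ^ N = C at *
    omega

/-- the exponents of the blocks -/
theorem VA10_exp (g h P J j m : ℕ) (hj : j < J) (hJ : J * (2 * g + h + 10) + 13 ≤ m) :
    zx g h P j + h + g + 1 + 14 ≤ P + m := by
  unfold zx
  have h1 : (j + 1) * (2 * g + h + 10) ≤ J * (2 * g + h + 10) := Nat.mul_le_mul_right _ hj
  have h2 : (j + 1) * (2 * g + h + 10) = j * (2 * g + h + 10) + (2 * g + h + 10) := by ring
  omega

/-- **VA10**. -/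
theorem VA10 (h1 : VA1_stmt) (h2 : VA2_stmt) (h4 : UJ4_stmt) (h5 : VA5_stmt) (h6 : VA6_stmt)
    (h7 : VA7_stmt) (h9 : VA9_stmt) (hu : UJ5_stmt) : VA10_stmt := by
  intro i N t p m s g h J x y hG j hj k hk l hl b
  obtain ⟨hx, hy, hs, hg, hh', ht, hJ, hN, hsub⟩ := hG
  have hye : (y.1 + y.2) % 2 = 0 := VA10_even x y (p + m + s) (by omega) hx hy
  obtain ⟨c1, c2, c3, c4, c5, c6, c7, c8⟩ :=
    h9 i N t p m s g h J x y ⟨hx, hy, hs, hg, hh', ht, hJ, hN, hsub⟩ (VA10_bl g h) rfl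
  set W := Wc x y p m s with hW
  set O1 : Set V := {v | sd x v < 2 ^ (p + 2)} with hO1
  set O2 : Set V := {v | sd y v < 2 ^ (p + 2)} with hO2
  have hU2 : U2c y p = O2 := rfl
  rw [hU2]
  have d1 : Disjoint (U1c x t) W := Disjoint.mono_left c6 c7
  have d12 : Disjoint (U1c x t) O2 := Disjoint.mono_left c6 c5
  have hAg : ∀ (z : V) (P j : ℕ), Ag z (zx g h P j) h ⊆ VA10_bl g h z (zx g h P j) :=
    fun z P j => (c2 z P j (j + 1) (Nat.lt_succ_self j)).2.2
  set G0 : (V → Bool) → ℝ :=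
    fun b => R3 x y g h (p + 3) (p + m + 3 * s) J j k l b * pmf (Fc i) b with hG0
  set q1 := zx g h (p + 3) j with hq1
  set q2 := zx g h (p + 3) k with hq2
  set q3 := zx g h (p + m + 3 * s) l with hq3
  have hq1e := VA10_exp g h (p + 3) J j m hj hJ
  have hq2e := VA10_exp g h (p + 3) J k m hk hJ
  have hq3e := VA10_exp g h (p + m + 3 * s) J l m hl hJ
  have hq1p : p + 2 ≤ q1 + h := by rw [hq1]; unfold zx; omega
  have hq2p : p + 2 ≤ q2 + h := by rw [hq2]; unfold zx; omega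
  have hq3p : p + 2 ≤ q3 + h := by rw [hq3]; unfold zx; omega
  have hpow : ∀ a c : ℕ, a ≤ c → (2 : ℕ) ^ a ≤ 2 ^ c := fun a c hac =>
    Nat.pow_le_pow_right (by norm_num) hac
  -- the three tails
  set T1 : (V → Bool) → ℝ := fun b => ∏ a ∈ Finset.Ioo j J, (1 - wf x g h (p + 3) a b) with hT1
  set T2 : (V → Bool) → ℝ := fun b => ∏ a ∈ Finset.Ioo k J, (1 - wf y g h (p + 3) a b) with hT2
  set T3 : (V → Bool) → ℝ :=
    fun b => ∏ a ∈ Finset.Ioo l J, (1 - wf x g h (p + m + 3 * s) a b) with hT3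
  set R1 : (V → Bool) → ℝ := Rf x g h (p + 3) J j with hR1
  set R2 : (V → Bool) → ℝ := Rf y g h (p + 3) J k with hR2
  set R3' : (V → Bool) → ℝ := Rf x g h (p + m + 3 * s) J l with hR3
  have fT1 : FinR T1 := VA10_fin_tail h5 x g h _ J j hx hg hh'
  have fT2 : FinR T2 := VA10_fin_tail h5 y g h _ J k hye hg hh'
  have fT3 : FinR T3 := VA10_fin_tail h5 x g h _ J l hx hg hh'
  have fR1 : FinR R1 := VA10_fin_Rf h5 x g h _ J j hx hg hh'
  have fR2 : FinR R2 := VA10_fin_Rf h5 y g h _ J k hye hg hh'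
  have fR3 : FinR R3' := VA10_fin_Rf h5 x g h _ J l hx hg hh'
  -- independence of the families
  have o1 : ∀ U : Set V, (∀ a, j ≤ a → a < J → Disjoint U (VA10_bl g h x (zx g h (p + 3) a))) →
      VA10_rel (VA10_off U) R1 := fun U hU => VA10_Rf x g h _ J j hj fun a ha ha' =>
    VA10_wf_off h7 x g h _ a U hx hg hh' (hU a ha ha')
  have o1' : ∀ U : Set V, (∀ a, j < a → a < J → Disjoint U (VA10_bl g h x (zx g h (p + 3) a))) →
      VA10_rel (VA10_off U) T1 := fun U hU => VA10_prod x g h _ J j fun a ha ha' =>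
    VA10_wf_off h7 x g h _ a U hx hg hh' (hU a ha ha')
  have o2 : ∀ U : Set V, (∀ a, k ≤ a → a < J → Disjoint U (VA10_bl g h y (zx g h (p + 3) a))) →
      VA10_rel (VA10_off U) R2 := fun U hU => VA10_Rf y g h _ J k hk fun a ha ha' =>
    VA10_wf_off h7 y g h _ a U hye hg hh' (hU a ha ha')
  have o2' : ∀ U : Set V, (∀ a, k < a → a < J → Disjoint U (VA10_bl g h y (zx g h (p + 3) a))) →
      VA10_rel (VA10_off U) T2 := fun U hU => VA10_prod y g h _ J k fun a ha ha' =>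
    VA10_wf_off h7 y g h _ a U hye hg hh' (hU a ha ha')
  have o3 : ∀ U : Set V,
      (∀ a, l ≤ a → a < J → Disjoint U (VA10_bl g h x (zx g h (p + m + 3 * s) a))) →
      VA10_rel (VA10_off U) R3' := fun U hU => VA10_Rf x g h _ J l hl fun a ha ha' =>
    VA10_wf_off h7 x g h _ a U hx hg hh' (hU a ha ha')
  have o3' : ∀ U : Set V,
      (∀ a, l < a → a < J → Disjoint U (VA10_bl g h x (zx g h (p + m + 3 * s) a))) →
      VA10_rel (VA10_off U) T3 := fun U hU => VA10_prod x g h _ J l fun a ha ha' =>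
    VA10_wf_off h7 x g h _ a U hx hg hh' (hU a ha ha')
  -- blocks and the small boxes
  have w1 : ∀ U : Set V, Disjoint U W → ∀ a, a < J →
      Disjoint U (VA10_bl g h x (zx g h (p + 3) a)) := fun U hU a ha =>
    Disjoint.mono_right (c1 a ha).1 hU
  have w2 : ∀ U : Set V, Disjoint U W → ∀ a, a < J →
      Disjoint U (VA10_bl g h y (zx g h (p + 3) a)) := fun U hU a ha =>
    Disjoint.mono_right (c1 a ha).2.1 hU
  have w3 : ∀ U : Set V, Disjoint U W → ∀ a, a < J →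
      Disjoint U (VA10_bl g h x (zx g h (p + m + 3 * s) a)) := fun U hU a ha =>
    Disjoint.mono_right (c1 a ha).2.2 hU
  -- (1) the block around x
  have m1 : ∀ b, av W (dl (U1c x t) (dl O2 G0)) (flp O1 b) =
      - av W (dl (U1c x t) (dl O2 G0)) b := by
    intro b
    have e0 : G0 = fun b => (T1 b * (R2 b * R3' b)) * (wpar x q1 h g b * pmf (Fc i) b) := by
      funext b
      simp only [hG0, hT1, hR2, hR3, R3]
      rw [Rf, wf]
      ring
    have hd : ∀ a, a < J → ∀ U : Set V, U ⊆ fI x q1 ∪ VA10_bl g h x q1 →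
        Disjoint U (VA10_bl g h y (zx g h (p + 3) a)) ∧
        Disjoint U (VA10_bl g h x (zx g h (p + m + 3 * s) a)) := fun a ha U hU =>
      ⟨Disjoint.mono_left hU (c3 j hj a ha).1, Disjoint.mono_left hU (c3 j hj a ha).2.2.1⟩
    have hA : Ag x q1 h ⊆ fI x q1 ∪ VA10_bl g h x q1 :=
      (hAg x (p + 3) j).trans Set.subset_union_right
    have := VA10_block h2 h4 h5 h6 h7 hu i N q1 h g x W (U1c x t) O2 (U1c x t)
      (fun b => T1 b * (R2 b * R3' b)) hx (VA10_zx g h _ j) hg hh' (by omega) hsub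
      (VA10_fin_mul fT1 (VA10_fin_mul fR2 fR3))
      (VA10_mul (o1' _ fun a ha _ => Disjoint.mono_left (hAg x (p + 3) j) (c2 x (p + 3) j a ha).1)
        (VA10_mul (o2 _ fun a _ ha => (hd a ha _ hA).1) (o3 _ fun a _ ha => (hd a ha _ hA).2)))
      (VA10_off_flp (VA10_mul (o1' _ fun a ha _ => (c2 x (p + 3) j a ha).2.1)
        (VA10_mul (o2 _ fun a _ ha => (hd a ha _ Set.subset_union_left).1)
          (o3 _ fun a _ ha => (hd a ha _ Set.subset_union_left).2))))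
      ((hAg x (p + 3) j).trans (c1 j hj).1) d1 c8 d12 (Or.inl rfl)
      (VA10_mul (o1' _ fun a _ ha => w1 _ d1 a ha)
        (VA10_mul (o2 _ fun a _ ha => w2 _ d1 a ha) (o3 _ fun a _ ha => w3 _ d1 a ha)))
      (w1 _ d1 j hj)
      (fun v hv => le_trans (le_of_lt (show sd x v < 2 ^ (p + 2) from c6 hv)) (hpow _ _ hq1p)) b
    rw [(c4 j hj).1] at this
    rw [e0]
    exact this
  -- (2) the block around y
  have m2 : ∀ b, av W (dl (U1c x t) (dl O2 G0)) (flp O2 b) =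
      - av W (dl (U1c x t) (dl O2 G0)) b := by
    intro b
    have e0 : G0 = fun b => (T2 b * (R1 b * R3' b)) * (wpar y q2 h g b * pmf (Fc i) b) := by
      funext b
      simp only [hG0, hT2, hR1, hR3, R3]
      rw [Rf, Rf, Rf, wf, wf, wf]
      ring
    have hd : ∀ a, a < J → ∀ U : Set V, U ⊆ fI y q2 ∪ VA10_bl g h y q2 →
        Disjoint U (VA10_bl g h x (zx g h (p + 3) a)) ∧
        Disjoint U (VA10_bl g h x (zx g h (p + m + 3 * s) a)) := fun a ha U hU =>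
      ⟨Disjoint.mono_left hU (c3 k hk a ha).2.1, Disjoint.mono_left hU (c3 k hk a ha).2.2.2.1⟩
    have hA : Ag y q2 h ⊆ fI y q2 ∪ VA10_bl g h y q2 :=
      (hAg y (p + 3) k).trans Set.subset_union_right
    have hbox : box y (2 ^ (q2 + h + g + 1)) ⊆ rect 1 (2 * 2 ^ i) 0 (hh (2 ^ i)) :=
      (VA10_box x y (p + m + s) (q2 + h + g + 1) N hy (by omega) (by omega)).trans hsub
    have := VA10_block h2 h4 h5 h6 h7 hu i (q2 + h + g + 1) q2 h g y W (U1c x t) O2 O2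
      (fun b => T2 b * (R1 b * R3' b)) hye (VA10_zx g h _ k) hg hh' le_rfl hbox
      (VA10_fin_mul fT2 (VA10_fin_mul fR1 fR3))
      (VA10_mul (o2' _ fun a ha _ => Disjoint.mono_left (hAg y (p + 3) k) (c2 y (p + 3) k a ha).1)
        (VA10_mul (o1 _ fun a _ ha => (hd a ha _ hA).1) (o3 _ fun a _ ha => (hd a ha _ hA).2)))
      (VA10_off_flp (VA10_mul (o2' _ fun a ha _ => (c2 y (p + 3) k a ha).2.1)
        (VA10_mul (o1 _ fun a _ ha => (hd a ha _ Set.subset_union_left).1)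
          (o3 _ fun a _ ha => (hd a ha _ Set.subset_union_left).2))))
      ((hAg y (p + 3) k).trans (c1 k hk).2.1) d1 c8 d12 (Or.inr rfl)
      (VA10_mul (o2' _ fun a _ ha => w2 _ c8 a ha)
        (VA10_mul (o1 _ fun a _ ha => w1 _ c8 a ha) (o3 _ fun a _ ha => w3 _ c8 a ha)))
      (w2 _ c8 k hk)
      (fun v hv => le_trans (le_of_lt (show sd y v < 2 ^ (p + 2) from hv)) (hpow _ _ hq2p)) b
    rw [(c4 k hk).2.1] at this
    rw [e0]
    exact this
  -- (3) the outer block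
  have m3 : ∀ b, av W (dl (U1c x t) (dl O2 G0)) (flp (O1 ∪ O2) b) =
      - av W (dl (U1c x t) (dl O2 G0)) b := by
    intro b
    have e0 : G0 = fun b => (T3 b * (R1 b * R2 b)) * (wpar x q3 h g b * pmf (Fc i) b) := by
      funext b
      simp only [hG0, hT3, hR1, hR2, R3]
      rw [Rf, Rf, Rf, wf, wf, wf]
      ring
    have hA : Ag x q3 h ⊆ VA10_bl g h x q3 := hAg x (p + m + 3 * s) l
    have := VA10_block h2 h4 h5 h6 h7 hu i N q3 h g x W (U1c x t) O2 (U1c x t)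
      (fun b => T3 b * (R1 b * R2 b)) hx (VA10_zx g h _ l) hg hh' (by omega) hsub
      (VA10_fin_mul fT3 (VA10_fin_mul fR1 fR2))
      (VA10_mul (o3' _ fun a ha _ => Disjoint.mono_left hA (c2 x (p + m + 3 * s) l a ha).1)
        (VA10_mul
          (o1 _ fun a _ ha => Disjoint.mono hA Set.subset_union_right (c3 a ha l hl).2.2.1.symm)
          (o2 _ fun a _ ha => Disjoint.mono hA Set.subset_union_right (c3 a ha l hl).2.2.2.1.symm)))
      (VA10_mul (VA10_off_flp (o3' _ fun a ha _ => (c2 x (p + m + 3 * s) l a ha).2.1))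
        (VA10_mul
          (VA10_Rf x g h _ J j hj fun a _ ha =>
            VA10_wf_flp h7 x g h _ a _ hx hg hh' (c3 a ha l hl).2.2.2.2.1)
          (VA10_Rf y g h _ J k hk fun a _ ha =>
            VA10_wf_flp h7 y g h _ a _ hye hg hh' (c3 a ha l hl).2.2.2.2.2)))
      (hA.trans (c1 l hl).2.2) d1 c8 d12 (Or.inl rfl)
      (VA10_mul (o3' _ fun a _ ha => w3 _ d1 a ha)
        (VA10_mul (o1 _ fun a _ ha => w1 _ d1 a ha) (o2 _ fun a _ ha => w2 _ d1 a ha)))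
      (w3 _ d1 l hl)
      (fun v hv => le_trans (le_of_lt (show sd x v < 2 ^ (p + 2) from c6 hv)) (hpow _ _ hq3p)) b
    rw [(c4 l hl).2.2] at this
    rw [e0]
    exact this
  have e1 : flp (O1 ∪ O2) b = flp O1 (flp O2 b) := h1.2.2.2.2.1 O1 O2 b c5
  have e2 := m3 b
  rw [e1, m1, m2] at e2
  linarith

end TP
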